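import Mathlib

set_option autoImplicit false

open MeasureTheory Cardinal Set

namespace Pool.Agent.R270.SC

/-- A function with values in a real Banach space is scalarly measurable when its composition with
every continuous linear functional is measurable. -/
def ScalarlyMeasurable {Ω X : Type} [MeasurableSpace Ω] [NormedAddCommGroup X] [NormedSpace ℝ X]
    (f : Ω → X) : Prop :=
  ∀ φ : StrongDual ℝ X, Measurable (fun t => φ (f t))

/-- A multi-function is scalarly measurable when it meets every open half-space in a measurable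
set of parameters. -/
def ScalarlyMeasurableMulti {Ω X : Type} [MeasurableSpace Ω] [NormedAddCommGroup X]
    [NormedSpace ℝ X] (F : Ω → Set X) : Prop :=
  ∀ φ : StrongDual ℝ X, φ ≠ 0 → ∀ a : ℝ, MeasurableSet {t | (F t ∩ {x | a < φ x}).Nonempty}

/-- The family of nonempty weakly compact subsets of `X`. -/
def wk (X : Type) [NormedAddCommGroup X] [NormedSpace ℝ X] : Set (Set X) :=
  {C | C.Nonempty ∧ IsCompact ((toWeakSpace ℝ X) '' C)}

/-- Property (SC) of a family `𝒞` of subsets of `X`, over one measurable space `Ω`: some set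
selector of `𝒞` turns every scalarly measurable `𝒞`-valued multi-function on `Ω` into a scalarly
measurable function. -/
def PropertySCOn (Ω : Type) [MeasurableSpace Ω] {X : Type} [NormedAddCommGroup X]
    [NormedSpace ℝ X] (𝒞 : Set (Set X)) : Prop :=
  ∃ ψ : Set X → X, (∀ C ∈ 𝒞, ψ C ∈ C) ∧
    ∀ F : Ω → Set X, (∀ t, F t ∈ 𝒞) → ScalarlyMeasurableMulti F →
      ScalarlyMeasurable (fun t => ψ (F t))

/-- Property (SC) of a family `𝒞` of subsets of `X`: some set selector of `𝒞` turns every scalarly
measurable `𝒞`-valued multi-function on any complete probability space into a scalarly measurable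
function. -/
def PropertySC {X : Type} [NormedAddCommGroup X] [NormedSpace ℝ X] (𝒞 : Set (Set X)) : Prop :=
  ∃ ψ : Set X → X, (∀ C ∈ 𝒞, ψ C ∈ C) ∧
    ∀ (Ω : Type) [MeasurableSpace Ω] (μ : Measure Ω) [IsProbabilityMeasure μ], μ.IsComplete →
      ∀ F : Ω → Set X, (∀ t, F t ∈ 𝒞) → ScalarlyMeasurableMulti F →
        ScalarlyMeasurable (fun t => ψ (F t))

/-- `X` has density character `κ`. -/
def HasDensity (X : Type) [TopologicalSpace X] (κ : Cardinal) : Prop :=
  (∃ D : Set X, Dense D ∧ #D = κ) ∧ ∀ D : Set X, Dense D → κ ≤ #D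

/-- The countable-cocountable sigma-algebra. -/
@[reducible] def ccMS (Ω : Type) : MeasurableSpace Ω where
  MeasurableSet' s := s.Countable ∨ sᶜ.Countable
  measurableSet_empty := Or.inl countable_empty
  measurableSet_compl s h := by
    rcases h with h | h
    · right; rwa [compl_compl]
    · left; exact h
  measurableSet_iUnion f hf := by
    by_cases h : ∀ i, (f i).Countable
    · left; exact countable_iUnion h
    · right
      push Not at h
      obtain ⟨i, hi⟩ := h
      have h2 := (hf i).resolve_left hi
      exact h2.mono (compl_subset_compl.mpr (subset_iUnion f i))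

open Classical in
/-- The measure which is 0 on countable sets and 1 on cocountable sets. -/
noncomputable def ccMeasure (Ω : Type) [Uncountable Ω] : @Measure Ω (ccMS Ω) :=
  letI := ccMS Ω
  Measure.ofMeasurable (fun s _ => if s.Countable then 0 else 1)
    (by simp)
    (by
      intro f hf hd
      by_cases h : ∀ i, (f i).Countable
      · have : (⋃ i, f i).Countable := countable_iUnion h
        simp only [this, if_true]
        simp [h]
      · push Not at h
        obtain ⟨i, hi⟩ := h
        have h2 : (f i)ᶜ.Countable := (hf i).resolve_left hi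
        have h3 : ¬ (⋃ i, f i).Countable := fun hc => hi (hc.mono (subset_iUnion f i))
        rw [if_neg h3]
        rw [tsum_eq_single i]
        · rw [if_neg hi]
        · intro j hj
          rw [if_pos]
          apply h2.mono
          intro x hx hxi
          exact (Set.disjoint_left.mp (hd hj) hx) hxi)

lemma ccMeasure_apply (Ω : Type) [Uncountable Ω] (s : Set Ω)
    (hs : @MeasurableSet Ω (ccMS Ω) s) [Decidable s.Countable] :
    ccMeasure Ω s = if s.Countable then 0 else 1 := by
  letI := ccMS Ω
  unfold ccMeasure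
  rw [Measure.ofMeasurable_apply s hs]
  congr

lemma ccMeasure_prob (Ω : Type) [Uncountable Ω] :
    @IsProbabilityMeasure Ω (ccMS Ω) (ccMeasure Ω) := by
  letI := ccMS Ω
  classical
  constructor
  rw [ccMeasure_apply Ω univ MeasurableSet.univ]
  rw [if_neg]
  exact Set.not_countable_univ

lemma ccMeasure_complete (Ω : Type) [Uncountable Ω] :
    @Measure.IsComplete Ω (ccMS Ω) (ccMeasure Ω) := by
  letI := ccMS Ω
  classical
  constructor
  intro s hs
  obtain ⟨t, h1, h2, h3⟩ := exists_measurable_superset_of_null hs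
  rw [ccMeasure_apply Ω t h2] at h3
  left
  by_cases h : t.Countable
  · exact h.mono h1
  · rw [if_neg h] at h3
    exact absurd h3 one_ne_zero

section side

variable {X : Type} [NormedAddCommGroup X] [NormedSpace ℝ X]

/-- the selector `ψ` picks `x` from the pair `{x, -x}` -/
def Side (ψ : Set X → X) (x : X) : Prop := ψ {x, -x} = x

lemma side_neg {ψ : Set X → X} (hψ : ∀ x, ψ {x, -x} ∈ ({x, -x} : Set X)) {x : X} (hx : x ≠ 0) :
    Side ψ (-x) ↔ ¬ Side ψ x := by
  have hne : x ≠ -x := by
    intro h
    apply hx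
    have h2 : (2 : ℝ) • x = 0 := by
      rw [two_smul]
      nth_rewrite 2 [h]
      exact add_neg_cancel x
    exact (smul_eq_zero.1 h2).resolve_left two_ne_zero
  have hpair : ({-x, - -x} : Set X) = {x, -x} := by
    rw [neg_neg, Set.pair_comm]
  unfold Side
  rw [hpair]
  have h1 := hψ x
  constructor
  · intro h h2
    exact hne (h2.symm.trans h)
  · intro h
    rcases h1 with h1 | h1
    · exact absurd h1 h
    · exact h1

/-- If `f` is scalarly constant up to countable sets, with a nonzero limit, then the selector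
chooses the same side of the pairs `{f t, -f t}` for all but countably many `t`. -/
lemma side_const (Ω : Type) {ψ : Set X → X} {𝒞 : Set (Set X)} (h𝒞 : ∀ x : X, {x, -x} ∈ 𝒞)
    (hψ : ∀ C ∈ 𝒞, ψ C ∈ C)
    (hm : ∀ F : Ω → Set X, (∀ t, F t ∈ 𝒞) → @ScalarlyMeasurableMulti Ω X (ccMS Ω) _ _ F →
      @ScalarlyMeasurable Ω X (ccMS Ω) _ _ (fun t => ψ (F t)))
    (f : Ω → X) (L : StrongDual ℝ X → ℝ) (hL : ∀ φ, {t | φ (f t) ≠ L φ}.Countable)
    (φ₀ : StrongDual ℝ X) (hφ₀ : L φ₀ ≠ 0) :
    {t | Side ψ (f t)}.Countable ∨ {t | ¬ Side ψ (f t)}.Countable := by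
  letI := ccMS Ω
  have h1 : ScalarlyMeasurableMulti (fun t => ({f t, -f t} : Set X)) := by
    intro φ _ a
    have h2 : {t | (({f t, -f t} : Set X) ∩ {x | a < φ x}).Nonempty} =
        {t | a < φ (f t) ∨ a < - φ (f t)} := by
      ext t
      simp only [mem_setOf_eq]
      constructor
      · rintro ⟨x, hx | hx, hx2⟩
        · left; rw [← hx]; exact hx2
        · right
          rw [Set.mem_singleton_iff] at hx
          rw [← map_neg, ← hx]; exact hx2
      · rintro (h | h)
        · exact ⟨f t, by simp, h⟩
        · exact ⟨-f t, by simp, by rw [← map_neg] at h; exact h⟩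
    rw [h2]
    by_cases h3 : a < L φ ∨ a < - L φ
    · right
      refine (hL φ).mono ?_
      intro t ht h4
      apply ht
      show a < φ (f t) ∨ a < - φ (f t)
      rw [h4]; exact h3
    · left
      refine (hL φ).mono ?_
      intro t ht h4
      apply h3
      have ht' : a < φ (f t) ∨ a < - φ (f t) := ht
      rw [h4] at ht'; exact ht'
  have h2 := hm _ (fun t => h𝒞 (f t)) h1 φ₀
  have h3 : MeasurableSet {t | φ₀ (ψ {f t, -f t}) = L φ₀} :=
    h2 (measurableSet_singleton (L φ₀))
  have hsel : ∀ t, ψ {f t, -f t} ∈ ({f t, -f t} : Set X) := fun t => hψ _ (h𝒞 (f t))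
  rcases h3 with h3 | h3
  · left
    refine (h3.union (hL φ₀)).mono ?_
    intro t ht
    by_cases h4 : φ₀ (f t) = L φ₀
    · left
      show φ₀ (ψ {f t, -f t}) = L φ₀
      have ht' : ψ {f t, -f t} = f t := ht
      rw [ht']; exact h4
    · right; exact h4
  · right
    refine (h3.union (hL φ₀)).mono ?_
    intro t ht
    by_cases h4 : φ₀ (f t) = L φ₀
    · left
      show ¬ (φ₀ (ψ {f t, -f t}) = L φ₀)
      have ht' : ¬ ψ {f t, -f t} = f t := ht
      rcases hsel t with h5 | h5
      · exact absurd h5 ht'
      · rw [Set.mem_singleton_iff] at h5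
        rw [h5, map_neg, h4]
        intro h6
        apply hφ₀
        linarith
    · right; exact h4

/-- Two functions with the same scalar limit have eventually the same side. -/
lemma side_two (W : Type) {ψ : Set X → X} {𝒞 : Set (Set X)} (h𝒞 : ∀ x : X, {x, -x} ∈ 𝒞)
    (hψ : ∀ C ∈ 𝒞, ψ C ∈ C)
    (hm : ∀ F : W × Bool → Set X, (∀ t, F t ∈ 𝒞) →
      @ScalarlyMeasurableMulti (W × Bool) X (ccMS (W × Bool)) _ _ F →
      @ScalarlyMeasurable (W × Bool) X (ccMS (W × Bool)) _ _ (fun t => ψ (F t)))
    (f g : W → X) (L : StrongDual ℝ X → ℝ) (hf : ∀ φ, {t | φ (f t) ≠ L φ}.Countable)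
    (hg : ∀ φ, {t | φ (g t) ≠ L φ}.Countable)
    (φ₀ : StrongDual ℝ X) (hφ₀ : L φ₀ ≠ 0) :
    {t | Side ψ (f t) ∨ Side ψ (g t)}.Countable ∨
      {t | ¬ Side ψ (f t) ∨ ¬ Side ψ (g t)}.Countable := by
  let h : W × Bool → X := fun p => if p.2 then f p.1 else g p.1
  have hL : ∀ φ, {t | φ (h t) ≠ L φ}.Countable := by
    intro φ
    have h1 : {t | φ (h t) ≠ L φ} ⊆ (fun t => (t, true)) '' {t | φ (f t) ≠ L φ} ∪
        (fun t => (t, false)) '' {t | φ (g t) ≠ L φ} := by
      rintro ⟨t, b⟩ ht
      cases b
      · right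
        exact ⟨t, by simpa [h] using ht, rfl⟩
      · left
        exact ⟨t, by simpa [h] using ht, rfl⟩
    exact (((hf φ).image _).union ((hg φ).image _)).mono h1
  have key := side_const (W × Bool) h𝒞 hψ hm h L hL φ₀ hφ₀
  have hi1 : Function.Injective (fun t : W => (t, true)) := fun a b h => (Prod.mk.inj h).1
  have hi2 : Function.Injective (fun t : W => (t, false)) := fun a b h => (Prod.mk.inj h).1
  rcases key with key | key
  · left
    have h1 := key.preimage hi1
    have h2 := key.preimage hi2
    refine (h1.union h2).mono ?_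
    rintro t (ht | ht)
    · left; simpa [h] using ht
    · right; simpa [h] using ht
  · right
    have h1 := key.preimage hi1
    have h2 := key.preimage hi2
    refine (h1.union h2).mono ?_
    rintro t (ht | ht)
    · left; simpa [h] using ht
    · right; simpa [h] using ht

end side

end Pool.Agent.R270.SC
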