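import Pool.Agent.R270.SC.A

set_option autoImplicit false

open MeasureTheory Cardinal Set Filter Topology

namespace Pool.Agent.R270.SC

section space

variable (W : Type) [LinearOrder W]

/-- branches -/
abbrev Z : Type := W → W

/-- bounded functions on the branches -/
abbrev E : Type := lp (fun _ : Z W => ℝ) ⊤

variable {W}

/-- indicator functions -/
noncomputable def ind (A : Set (Z W)) : E W :=
  ⟨A.indicator (fun _ => (1 : ℝ)), by
    apply memℓp_infty
    refine ⟨1, ?_⟩
    rintro _ ⟨z, rfl⟩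
    by_cases h : z ∈ A
    · simp [h]
    · simp [h]⟩

lemma ind_apply (A : Set (Z W)) (z : Z W) : ind A z = A.indicator (fun _ => (1 : ℝ)) z := rfl

lemma ind_mem {A : Set (Z W)} {z : Z W} (h : z ∈ A) : ind A z = 1 := by
  rw [ind_apply, indicator_of_mem h]

lemma ind_notMem {A : Set (Z W)} {z : Z W} (h : z ∉ A) : ind A z = 0 := by
  rw [ind_apply, indicator_of_notMem h]

lemma ind_sub {A B : Set (Z W)} (h : B ⊆ A) : ind A - ind B = ind (A \ B) := by
  ext z
  rw [lp.coeFn_sub, Pi.sub_apply]
  by_cases h1 : z ∈ B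
  · rw [ind_mem (h h1), ind_mem h1, ind_notMem (show z ∉ A \ B from fun h2 => h2.2 h1), sub_self]
  · by_cases h2 : z ∈ A
    · rw [ind_mem h2, ind_notMem h1, ind_mem (show z ∈ A \ B from ⟨h2, h1⟩), sub_zero]
    · rw [ind_notMem h2, ind_notMem h1, ind_notMem (show z ∉ A \ B from fun h3 => h2 h3.1), sub_zero]

def VL (y : Z W) (b : W) : Set (Z W) := {z | ∀ a < b, z a = y a}
def VE (y : Z W) (b : W) : Set (Z W) := {z | ∀ a ≤ b, z a = y a}

variable (W) in
/-- the generators -/
def gens : Set (E W) :=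
  range (fun p : Z W × W => ind (VL p.1 p.2)) ∪ range (fun p : Z W × W => ind (VE p.1 p.2))

variable (W) in
/-- the space -/
noncomputable abbrev X : Type := ((Submodule.span ℝ (gens W)).topologicalClosure : Submodule ℝ (E W))

noncomputable instance : CompleteSpace (X W) :=
  (Submodule.isClosed_topologicalClosure _).completeSpace_coe

noncomputable def el (y : Z W) (b : W) : X W :=
  ⟨ind (VL y b), Submodule.le_topologicalClosure _
    (Submodule.subset_span (Or.inl ⟨(y, b), rfl⟩))⟩

noncomputable def ee (y : Z W) (b : W) : X W :=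
  ⟨ind (VE y b), Submodule.le_topologicalClosure _
    (Submodule.subset_span (Or.inr ⟨(y, b), rfl⟩))⟩

/-- evaluation at `z` -/
noncomputable def ev (z : Z W) : StrongDual ℝ (X W) :=
  LinearMap.mkContinuous
    { toFun := fun x : X W => (x : E W) z
      map_add' := fun x y => by
        rw [Submodule.coe_add, lp.coeFn_add, Pi.add_apply]
      map_smul' := fun c x => by
        rw [Submodule.coe_smul, lp.coeFn_smul, Pi.smul_apply, RingHom.id_apply] } 1
    (fun x => by
      rw [one_mul]
      exact lp.norm_apply_le_norm ENNReal.top_ne_zero (x : E W) z)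

lemma ev_apply (z : Z W) (x : X W) : ev z x = (x : E W) z := rfl

lemma norm_sum_le {ι : Type} (A : ι → Set (Z W)) (hA : ∀ i j, i ≠ j → Disjoint (A i) (A j))
    (v : ι → X W) (hv : ∀ i, (v i : E W) = ind (A i)) (F : Finset ι) (s : ι → ℝ)
    (hs : ∀ i, |s i| ≤ 1) : ‖∑ i ∈ F, s i • v i‖ ≤ 1 := by
  classical
  have h1 : ‖∑ i ∈ F, s i • v i‖ = ‖((∑ i ∈ F, s i • v i : X W) : E W)‖ := rfl
  rw [h1]
  refine lp.norm_le_of_forall_le zero_le_one ?_
  intro z
  have h2 : ((∑ i ∈ F, s i • v i : X W) : E W) z = ∑ i ∈ F, s i * ind (A i) z := by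
    rw [← ev_apply, map_sum]
    refine Finset.sum_congr rfl fun i _ => ?_
    rw [map_smul, ev_apply, hv, smul_eq_mul]
  rw [h2]
  by_cases h : ∃ i ∈ F, z ∈ A i
  · obtain ⟨i, hi, hz⟩ := h
    rw [Finset.sum_eq_single i]
    · rw [ind_mem hz, mul_one]; exact hs i
    · intro j _ hj
      rw [ind_notMem (fun h => (Set.disjoint_left.1 (hA j i hj)) h hz), mul_zero]
    · intro h; exact absurd hi h
  · push Not at h
    rw [Finset.sum_eq_zero]
    · simp
    · intro i hi
      rw [ind_notMem (h i hi), mul_zero]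

lemma summable_disj {ι : Type} (A : ι → Set (Z W)) (hA : ∀ i j, i ≠ j → Disjoint (A i) (A j))
    (v : ι → X W) (hv : ∀ i, (v i : E W) = ind (A i)) (φ : StrongDual ℝ (X W)) :
    Summable (fun i => |φ (v i)|) := by
  refine summable_of_sum_le (c := ‖φ‖) (fun i => abs_nonneg _) ?_
  intro F
  let s : ι → ℝ := fun i => if 0 ≤ φ (v i) then 1 else -1
  have hs : ∀ i, |s i| ≤ 1 := by
    intro i
    by_cases h : 0 ≤ φ (v i)
    · simp [s, h]
    · simp [s, h]
  have h1 : ∑ i ∈ F, |φ (v i)| = φ (∑ i ∈ F, s i • v i) := by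
    rw [map_sum]
    refine Finset.sum_congr rfl fun i _ => ?_
    rw [map_smul, smul_eq_mul]
    by_cases h : 0 ≤ φ (v i)
    · simp [s, h, abs_of_nonneg h]
    · simp only [s, h, if_false]
      rw [abs_of_neg (not_le.1 h)]; ring
  rw [h1]
  calc φ (∑ i ∈ F, s i • v i) ≤ ‖φ (∑ i ∈ F, s i • v i)‖ := le_abs_self _
    _ ≤ ‖φ‖ * ‖∑ i ∈ F, s i • v i‖ := φ.le_opNorm _
    _ ≤ ‖φ‖ * 1 := by gcongr; exact norm_sum_le A hA v hv F s hs
    _ = ‖φ‖ := mul_one _

lemma countable_ne {ι : Type} (A : ι → Set (Z W)) (hA : ∀ i j, i ≠ j → Disjoint (A i) (A j))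
    (v : ι → X W) (hv : ∀ i, (v i : E W) = ind (A i)) (φ : StrongDual ℝ (X W)) :
    {i | φ (v i) ≠ 0}.Countable := by
  refine (summable_disj A hA v hv φ).countable_support.mono ?_
  intro i hi
  rw [Function.mem_support]
  exact abs_ne_zero.2 hi

lemma VL_anti (z : Z W) {a b : W} (h : a ≤ b) : VL z b ⊆ VL z a :=
  fun _ hw c hc => hw c (hc.trans_le h)

lemma VE_sub_VL (z : Z W) (b : W) : VE z b ⊆ VL z b := fun _ hw c hc => hw c hc.le

lemma VL_sub_VE (z : Z W) {a b : W} (h : a < b) : VL z b ⊆ VE z a :=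
  fun _ hw c hc => hw c (hc.trans_lt h)

lemma el_sub_ee (z : Z W) (φ : StrongDual ℝ (X W)) : {b | φ (el z b) ≠ φ (ee z b)}.Countable := by
  have h1 := countable_ne (fun b : W => VL z b \ VE z b) (by
      have key : ∀ i j : W, i < j → Disjoint (VL z i \ VE z i) (VL z j \ VE z j) := by
        intro i j hij
        rw [Set.disjoint_left]
        intro w hw hw2
        exact hw.2 (VL_sub_VE z hij hw2.1)
      intro i j hij
      rcases lt_or_gt_of_ne hij with h | h
      · exact key i j h
      · exact (key j i h).symm)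
    (fun b => el z b - ee z b) (fun b => by
      show ind (VL z b) - ind (VE z b) = _
      exact ind_sub (VE_sub_VL z b)) φ
  refine h1.mono ?_
  intro b hb
  show φ (el z b - ee z b) ≠ 0
  rw [map_sub]
  exact sub_ne_zero.2 hb

variable [Uncountable W] (hW : ∀ t : W, (Iio t).Countable)

include hW in
lemma exists_bound {s : Set W} (hs : s.Countable) : ∃ b, ∀ t ∈ s, t < b := by
  have h1 : (⋃ t ∈ s, Iic t).Countable := by
    refine hs.biUnion fun t _ => ?_
    have h2 : Iic t = Iio t ∪ {t} := by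
      ext x; simp [le_iff_lt_or_eq]
    rw [h2]
    exact (hW t).union (countable_singleton t)
  by_contra hcon
  push Not at hcon
  have h2 : (univ : Set W) ⊆ ⋃ t ∈ s, Iic t := by
    intro b _
    obtain ⟨t, ht, hbt⟩ := hcon b
    exact mem_iUnion₂.2 ⟨t, ht, hbt⟩
  exact Set.not_countable_univ (h1.mono h2)

omit [Uncountable W] in
lemma osc [Nonempty W] (z : Z W) (φ : StrongDual ℝ (X W)) (ε : ℝ) (hε : 0 < ε) :
    ∃ b₀ : W, ∀ b, b₀ ≤ b → ∀ c, b ≤ c → |φ (el z b) - φ (el z c)| ≤ ε := by
  by_contra hcon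
  push Not at hcon
  choose a ha b hb hab using hcon
  let t : ℕ → W := fun n => Nat.rec (Classical.arbitrary W) (fun _ x => b x) n
  have ht : ∀ n, t (n + 1) = b (t n) := fun n => rfl
  have hmono : Monotone t := by
    refine monotone_nat_of_le_succ fun n => ?_
    rw [ht]
    exact (ha _).trans (hb _)
  have h1 := summable_disj (fun n : ℕ => VL z (a (t n)) \ VL z (b (t n))) (by
      have key : ∀ i j : ℕ, i < j →
          Disjoint (VL z (a (t i)) \ VL z (b (t i))) (VL z (a (t j)) \ VL z (b (t j))) := by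
        intro i j hij
        rw [Set.disjoint_left]
        intro w hw hw2
        apply hw.2
        have h3 : b (t i) ≤ a (t j) := by
          rw [← ht]
          exact (hmono hij).trans (ha _)
        exact VL_anti z h3 hw2.1
      intro i j hij
      rcases lt_or_gt_of_ne hij with h | h
      · exact key i j h
      · exact (key j i h).symm)
    (fun n => el z (a (t n)) - el z (b (t n))) (fun n => by
      show ind (VL z (a (t n))) - ind (VL z (b (t n))) = _
      exact ind_sub (VL_anti z (hb _))) φ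
  have h2 := h1.tendsto_atTop_zero
  have h3 := (h2.eventually (gt_mem_nhds hε)).exists
  obtain ⟨n, hn⟩ := h3
  have h4 := hab (t n)
  rw [map_sub] at hn
  linarith

include hW in
/-- along a branch every functional is eventually constant -/
lemma branch_limit (z : Z W) (φ : StrongDual ℝ (X W)) :
    ∃ L : ℝ, {b | φ (el z b) ≠ L}.Countable ∧ {b | φ (ee z b) ≠ L}.Countable := by
  have hne : Nonempty W := inferInstance
  choose b₀ hb₀ using fun n : ℕ => osc z φ (1 / ((n : ℝ) + 1)) (by positivity)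
  obtain ⟨b, hb⟩ := exists_bound hW (Set.countable_range b₀)
  have h1 : {c | φ (el z c) ≠ φ (el z b)}.Countable := by
    refine (hW b).mono ?_
    intro c hc
    by_contra hcb
    have hcb' : b ≤ c := not_lt.1 hcb
    apply hc
    have h2 : ∀ n : ℕ, |φ (el z b) - φ (el z c)| ≤ 1 / ((n : ℝ) + 1) := fun n =>
      hb₀ n b (hb _ ⟨n, rfl⟩).le c hcb'
    have h3 : |φ (el z b) - φ (el z c)| ≤ 0 :=
      ge_of_tendsto' tendsto_one_div_add_atTop_nhds_zero_nat h2
    have h4 := abs_nonpos_iff.1 h3
    linarith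
  refine ⟨φ (el z b), h1, (h1.union (el_sub_ee z φ)).mono ?_⟩
  intro c hc
  by_cases h : φ (el z c) = φ (ee z c)
  · left
    show φ (el z c) ≠ φ (el z b)
    rw [h]; exact hc
  · right; exact h

end space

end Pool.Agent.R270.SC
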