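import Pool.Agent.R270.SC.B

set_option autoImplicit false

open MeasureTheory Cardinal Set Filter Topology

namespace Pool.Agent.R270.SC

section main

variable {W : Type} [LinearOrder W] [WellFoundedLT W] [Uncountable W]

omit [WellFoundedLT W] [Uncountable W] in
lemma ev_el (z : Z W) (b : W) : ev z (el z b) = 1 := by
  rw [ev_apply]
  exact ind_mem (fun a _ => rfl)

omit [WellFoundedLT W] [Uncountable W] in
lemma ev_ee (z : Z W) (b : W) : ev z (ee z b) = 1 := by
  rw [ev_apply]
  exact ind_mem (fun a _ => rfl)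

omit [WellFoundedLT W] [Uncountable W] in
lemma el_congr {y z : Z W} {b : W} (h : ∀ a < b, y a = z a) : el y b = el z b := by
  apply Subtype.ext
  show ind (VL y b) = ind (VL z b)
  congr 1
  ext w
  constructor
  · intro hw a ha; rw [hw a ha, h a ha]
  · intro hw a ha; rw [hw a ha, h a ha]

omit [WellFoundedLT W] [Uncountable W] in
lemma ee_congr {y z : Z W} {b : W} (h : ∀ a ≤ b, y a = z a) : ee y b = ee z b := by
  apply Subtype.ext
  show ind (VE y b) = ind (VE z b)
  congr 1
  ext w
  constructor
  · intro hw a ha; rw [hw a ha, h a ha]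
  · intro hw a ha; rw [hw a ha, h a ha]

variable (hW : ∀ t : W, (Iio t).Countable)

/-- hypotheses on a selector -/
structure Good (ψ : Set (X W) → X W) (𝒞 : Set (Set (X W))) : Prop where
  pair : ∀ x : X W, {x, -x} ∈ 𝒞
  sel : ∀ C ∈ 𝒞, ψ C ∈ C
  meas : ∀ F : W × Bool → Set (X W), (∀ t, F t ∈ 𝒞) →
      @ScalarlyMeasurableMulti (W × Bool) (X W) (ccMS (W × Bool)) _ _ F →
      @ScalarlyMeasurable (W × Bool) (X W) (ccMS (W × Bool)) _ _ (fun t => ψ (F t))

omit [WellFoundedLT W] in
lemma exists_next {ψ : Set (X W) → X W} {𝒞 : Set (Set (X W))} (hg : Good ψ 𝒞) (y : Z W) (b : W) :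
    ∃ i : W, Side ψ (el y b - (2 : ℝ) • ee (Function.update y b i) b) ↔ Side ψ (el y b) := by
  have h1 : ∀ φ : StrongDual ℝ (X W), {i | φ (ee (Function.update y b i) b) ≠ 0}.Countable := by
    intro φ
    refine countable_ne (fun i : W => VE (Function.update y b i) b) ?_
      (fun i => ee (Function.update y b i) b) (fun i => rfl) φ
    intro i j hij
    rw [Set.disjoint_left]
    intro w hw hw2
    apply hij
    have h1 := hw b le_rfl
    have h2 := hw2 b le_rfl
    rw [Function.update_self] at h1 h2
    rw [← h1, ← h2]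
  have h2 := side_two W hg.pair hg.sel hg.meas (fun _ => el y b)
    (fun i => el y b - (2 : ℝ) • ee (Function.update y b i) b) (fun φ => φ (el y b))
    (fun φ => by simp) (fun φ => by
      refine (h1 φ).mono ?_
      intro i hi h3
      apply hi
      show φ (el y b - (2 : ℝ) • ee (Function.update y b i) b) = φ (el y b)
      rw [map_sub, map_smul, h3, smul_zero, sub_zero]) (ev y) (by rw [ev_el]; exact one_ne_zero)
  rcases h2 with h2 | h2
  · have h3 : ∃ i, ¬ (Side ψ (el y b) ∨
        Side ψ (el y b - (2 : ℝ) • ee (Function.update y b i) b)) := by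
      by_contra hcon
      push Not at hcon
      exact Set.not_countable_univ (h2.mono (fun i _ => hcon i))
    obtain ⟨i, hi⟩ := h3
    push Not at hi
    exact ⟨i, iff_of_false hi.2 hi.1⟩
  · have h3 : ∃ i, ¬ (¬ Side ψ (el y b) ∨
        ¬ Side ψ (el y b - (2 : ℝ) • ee (Function.update y b i) b)) := by
      by_contra hcon
      push Not at hcon
      exact Set.not_countable_univ (h2.mono (fun i _ => hcon i))
    obtain ⟨i, hi⟩ := h3
    push Not at hi
    exact ⟨i, iff_of_true hi.2 hi.1⟩

lemma exists_branch {ψ : Set (X W) → X W} {𝒞 : Set (Set (X W))} (hg : Good ψ 𝒞) :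
    ∃ z : Z W, ∀ b : W, Side ψ (el z b - (2 : ℝ) • ee z b) ↔ Side ψ (el z b) := by
  classical
  choose I hI using fun (p : Z W × W) => exists_next hg p.1 p.2
  let ext : (b : W) → ((a : W) → a < b → W) → Z W := fun b r a => if h : a < b then r a h else b
  let G : (b : W) → ((a : W) → a < b → W) → W := fun b r => I (ext b r, b)
  let z : Z W := (wellFounded_lt (α := W)).fix G
  have hz : ∀ b, z b = G b (fun a _ => z a) := fun b => WellFounded.fix_eq _ G b
  refine ⟨z, fun b => ?_⟩
  have h1 := hI (ext b (fun a _ => z a), b)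
  have h2 : ∀ a < b, ext b (fun a _ => z a) a = z a := by
    intro a ha
    simp only [ext, ha, dif_pos]
  have h3 : el (ext b (fun a _ => z a)) b = el z b := el_congr h2
  have h4 : ee (Function.update (ext b (fun a _ => z a)) b (I (ext b (fun a _ => z a), b))) b
      = ee z b := by
    apply ee_congr
    intro a ha
    rcases ha.lt_or_eq with h | h
    · rw [Function.update_of_ne h.ne, h2 a h]
    · subst h
      rw [Function.update_self, hz a]
  rw [h3, h4] at h1
  exact h1

include hW in
theorem not_good {ψ : Set (X W) → X W} {𝒞 : Set (Set (X W))} (hg : Good ψ 𝒞) : False := by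
  obtain ⟨z, hz⟩ := exists_branch hg
  choose L hL1 hL2 using branch_limit hW z
  have hL0 : L (ev z) ≠ 0 := by
    intro h
    have h1 := hL1 (ev z)
    rw [h] at h1
    refine Set.not_countable_univ (h1.mono (fun b _ => ?_))
    show ev z (el z b) ≠ 0
    rw [ev_el]; exact one_ne_zero
  have h2 := side_two W hg.pair hg.sel hg.meas (fun b => el z b)
    (fun b => (2 : ℝ) • ee z b - el z b) L hL1 (fun φ => by
      refine ((hL1 φ).union (hL2 φ)).mono ?_
      intro b hb
      by_cases h : φ (el z b) = L φ
      · right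
        intro h3
        apply hb
        show φ ((2 : ℝ) • ee z b - el z b) = L φ
        rw [map_sub, map_smul, h3, h, smul_eq_mul]; ring
      · left; exact h) (ev z) hL0
  have hne : ∀ b, (2 : ℝ) • ee z b - el z b ≠ 0 := by
    intro b h
    have h1 : ev z ((2 : ℝ) • ee z b - el z b) = 0 := by rw [h, map_zero]
    rw [map_sub, map_smul, ev_ee, ev_el, smul_eq_mul] at h1
    norm_num at h1
  have hside : ∀ b, Side ψ (el z b) ↔ ¬ Side ψ ((2 : ℝ) • ee z b - el z b) := by
    intro b
    rw [← hz b, ← side_neg (fun x => hg.sel _ (hg.pair x)) (hne b), neg_sub]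
  rcases h2 with h2 | h2
  · refine Set.not_countable_univ (h2.mono (fun b _ => ?_))
    show Side ψ (el z b) ∨ Side ψ ((2 : ℝ) • ee z b - el z b)
    by_cases h : Side ψ (el z b)
    · left; exact h
    · right
      by_contra h3
      exact h ((hside b).2 h3)
  · refine Set.not_countable_univ (h2.mono (fun b _ => ?_))
    show ¬ Side ψ (el z b) ∨ ¬ Side ψ ((2 : ℝ) • ee z b - el z b)
    by_cases h : Side ψ (el z b)
    · right; exact (hside b).1 h
    · left; exact h

include hW in
/-- upper bound for the cardinality of the generators -/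
lemma mk_gens_le (hcard : #W ≤ 𝔠) : #(gens W) ≤ 𝔠 := by
  have hI : ∀ b : W, #(Iio b → W) ≤ 𝔠 := by
    intro b
    have h1 : #(Iio b) ≤ ℵ₀ := (hW b).le_aleph0
    rw [← Cardinal.power_def]
    calc #W ^ #(Iio b) ≤ 𝔠 ^ #(Iio b) := Cardinal.power_le_power_right hcard
      _ ≤ 𝔠 ^ ℵ₀ := Cardinal.power_le_power_left (Cardinal.continuum_ne_zero) h1
      _ = 𝔠 := Cardinal.continuum_power_aleph0
  have hJ : ∀ b : W, #(Iic b → W) ≤ 𝔠 := by
    intro b
    have h0 : (Iic b).Countable := by
      have h2 : Iic b = Iio b ∪ {b} := by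
        ext x; simp [le_iff_lt_or_eq]
      rw [h2]
      exact (hW b).union (countable_singleton b)
    have h1 : #(Iic b) ≤ ℵ₀ := h0.le_aleph0
    rw [← Cardinal.power_def]
    calc #W ^ #(Iic b) ≤ 𝔠 ^ #(Iic b) := Cardinal.power_le_power_right hcard
      _ ≤ 𝔠 ^ ℵ₀ := Cardinal.power_le_power_left (Cardinal.continuum_ne_zero) h1
      _ = 𝔠 := Cardinal.continuum_power_aleph0
  have hA : #(Σ b : W, (Iio b → W)) ≤ 𝔠 := by
    rw [Cardinal.mk_sigma]
    calc Cardinal.sum (fun b : W => #(Iio b → W)) ≤ Cardinal.sum (fun _ : W => 𝔠) :=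
          Cardinal.sum_le_sum _ _ hI
      _ = #W * 𝔠 := by rw [Cardinal.sum_const']
      _ ≤ 𝔠 * 𝔠 := by gcongr
      _ = 𝔠 := Cardinal.continuum_mul_self
  have hB : #(Σ b : W, (Iic b → W)) ≤ 𝔠 := by
    rw [Cardinal.mk_sigma]
    calc Cardinal.sum (fun b : W => #(Iic b → W)) ≤ Cardinal.sum (fun _ : W => 𝔠) :=
          Cardinal.sum_le_sum _ _ hJ
      _ = #W * 𝔠 := by rw [Cardinal.sum_const']
      _ ≤ 𝔠 * 𝔠 := by gcongr
      _ = 𝔠 := Cardinal.continuum_mul_self
  let GA : (Σ b : W, (Iio b → W)) → E W := fun p => ind {z | ∀ a : Iio p.1, z a = p.2 a}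
  let GB : (Σ b : W, (Iic b → W)) → E W := fun p => ind {z | ∀ a : Iic p.1, z a = p.2 a}
  have h1 : gens W ⊆ range GA ∪ range GB := by
    rintro x (⟨p, rfl⟩ | ⟨p, rfl⟩)
    · left
      refine ⟨⟨p.2, fun a => p.1 a⟩, ?_⟩
      show ind _ = ind _
      congr 1
      ext z
      exact ⟨fun h a ha => h ⟨a, ha⟩, fun h a => h a.1 a.2⟩
    · right
      refine ⟨⟨p.2, fun a => p.1 a⟩, ?_⟩
      show ind _ = ind _
      congr 1
      ext z
      exact ⟨fun h a ha => h ⟨a, ha⟩, fun h a => h a.1 a.2⟩
  calc #(gens W) ≤ #(range GA ∪ range GB : Set (E W)) := Cardinal.mk_le_mk_of_subset h1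
    _ ≤ #(range GA) + #(range GB) := Cardinal.mk_union_le _ _
    _ ≤ 𝔠 + 𝔠 := add_le_add (Cardinal.mk_range_le.trans hA) (Cardinal.mk_range_le.trans hB)
    _ = 𝔠 := Cardinal.continuum_add_self

include hW in
lemma mk_span_le (hcard : #W ≤ 𝔠) : #(Submodule.span ℝ (gens W)) ≤ 𝔠 := by
  have hne : Nonempty W := inferInstance
  have h1 := mk_gens_le hW hcard
  have h2 : (Submodule.span ℝ (gens W) : Set (E W)) ⊆
      range (fun f : (gens W) →₀ ℝ => Finsupp.linearCombination ℝ (Subtype.val : gens W → E W) f) := by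
    intro x hx
    have h3 := (Finsupp.mem_span_iff_linearCombination ℝ (gens W) x).1 hx
    obtain ⟨l, hl⟩ := h3
    exact ⟨l, hl⟩
  have h3 : #((gens W) →₀ ℝ) ≤ 𝔠 := by
    have hg : Nonempty (gens W) := by
      obtain ⟨w⟩ := hne
      exact ⟨⟨ind (VL (fun _ => w) w), Or.inl ⟨(fun _ => w, w), rfl⟩⟩⟩
    rw [Cardinal.mk_finsupp_of_infinite']
    refine max_le h1 ?_
    rw [Cardinal.mk_real]
  exact (Cardinal.mk_le_mk_of_subset h2).trans (Cardinal.mk_range_le.trans h3)

include hW in
theorem density (hcard : #W ≤ 𝔠) : HasDensity (X W) 𝔠 := by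
  have hlow : ∀ D : Set (X W), Dense D → 𝔠 ≤ #D := by
    intro D hD
    -- an infinite initial segment
    obtain ⟨b, hb⟩ : ∃ b : W, (Iio b).Infinite := by
      have : Infinite W := inferInstance
      obtain ⟨s, hs1, hs2⟩ := Cardinal.le_mk_iff_exists_subset.1
        (show ℵ₀ ≤ #(univ : Set W) by rw [Cardinal.mk_univ]; exact Cardinal.aleph0_le_mk W)
      have hsc : s.Countable := by
        rw [← Cardinal.le_aleph0_iff_set_countable, hs2]
      obtain ⟨b, hb⟩ := exists_bound hW hsc
      refine ⟨b, ?_⟩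
      have hsi : s.Infinite := by
        rw [← Set.infinite_coe_iff, Cardinal.infinite_iff, hs2]
      exact hsi.mono hb
    obtain ⟨w0, w1, hw⟩ := exists_pair_ne W
    classical
    let y : (Iio b → Bool) → Z W := fun q a => if h : a < b then (if q ⟨a, h⟩ then w1 else w0) else w0
    have hsep : ∀ q q' : Iio b → Bool, q ≠ q' → 1 ≤ ‖el (y q) b - el (y q') b‖ := by
      intro q q' hq
      have h1 : ‖ev (y q) (el (y q) b - el (y q') b)‖ ≤ ‖el (y q) b - el (y q') b‖ := by
        rw [ev_apply]
        exact lp.norm_apply_le_norm ENNReal.top_ne_zero _ _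
      have h2 : ev (y q) (el (y q) b - el (y q') b) = 1 := by
        rw [map_sub, ev_el, ev_apply]
        have h3 : y q ∉ VL (y q') b := by
          intro h
          apply hq
          funext a
          have h4 := h a.1 a.2
          have h5 : (a.1 : W) < b := a.2
          simp only [y, h5, dif_pos] at h4
          by_cases h6 : q a = true
          · by_cases h7 : q' a = true
            · rw [h6, h7]
            · simp only [Subtype.coe_eta, h6, h7, if_true] at h4
              exact absurd h4.symm hw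
          · by_cases h7 : q' a = true
            · simp only [Subtype.coe_eta, h6, h7, if_true] at h4
              exact absurd h4 hw
            · rw [Bool.not_eq_true] at h6 h7
              rw [h6, h7]
        have h4 : ((el (y q') b : X W) : E W) (y q) = 0 := ind_notMem h3
        rw [h4, sub_zero]
      rw [h2] at h1
      simpa using h1
    have hnear : ∀ q : Iio b → Bool, ∃ d ∈ D, dist (el (y q) b) d < 1 / 2 := by
      intro q
      exact hD.exists_dist_lt _ (by norm_num)
    choose d hdD hd using hnear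
    have hinj : Function.Injective (fun q => (⟨d q, hdD q⟩ : D)) := by
      intro q q' h
      by_contra hne
      have h1 := hsep q q' hne
      have h2 : d q = d q' := congrArg Subtype.val h
      have h3 : dist (el (y q) b) (el (y q') b) < 1 := by
        calc dist (el (y q) b) (el (y q') b) ≤ dist (el (y q) b) (d q) + dist (d q) (el (y q') b) :=
              dist_triangle _ _ _
          _ < 1 / 2 + 1 / 2 := by
              refine add_lt_add (hd q) ?_
              rw [dist_comm, h2]; exact hd q'
          _ = 1 := by norm_num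
      rw [dist_eq_norm] at h3
      linarith
    have h1 := Cardinal.mk_le_of_injective hinj
    refine le_trans ?_ h1
    have h2 : #(Iio b → Bool) = 2 ^ #(Iio b) := by
      rw [← Cardinal.power_def, Cardinal.mk_bool]
    rw [h2, ← Cardinal.two_power_aleph0]
    refine Cardinal.power_le_power_left two_ne_zero ?_
    rw [← Cardinal.infinite_iff]
    exact hb.to_subtype
  refine ⟨?_, hlow⟩
  let D : Set (X W) := {x | (x : E W) ∈ Submodule.span ℝ (gens W)}
  have hD : Dense D := by
    intro x
    rw [Metric.mem_closure_iff]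
    intro ε hε
    have hx : (x : E W) ∈ closure (Submodule.span ℝ (gens W) : Set (E W)) := x.2
    obtain ⟨y, hy, hxy⟩ := Metric.mem_closure_iff.1 hx ε hε
    exact ⟨⟨y, Submodule.le_topologicalClosure _ hy⟩, hy, hxy⟩
  refine ⟨D, hD, le_antisymm ?_ (hlow D hD)⟩
  have h1 : Function.Injective (fun x : D => (⟨(x.1 : E W), x.2⟩ : Submodule.span ℝ (gens W))) := by
    intro x y h
    apply Subtype.ext
    apply Subtype.ext
    exact Subtype.mk.inj h
  exact (Cardinal.mk_le_of_injective h1).trans (mk_span_le hW hcard)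

end main

end Pool.Agent.R270.SC
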